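import Pool.Agent.Lib.MP_e21d7a_al.Conv

set_option autoImplicit false

namespace Pool.Agent.Lib.MP_e21d7a_al.Proj

open Filter Topology

universe u v

/-- The quotient topology on the projective space of `V`: the finest topology for which the map
sending a nonzero vector to its line is continuous. -/
@[reducible] noncomputable def projTop (V : Type v) [AddCommGroup V] [Module ℝ V] [TopologicalSpace V] :
    TopologicalSpace (Projectivization ℝ V) :=
  TopologicalSpace.coinduced (Projectivization.mk' ℝ) inferInstance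

/-- The reflection `v ↦ v - 2 B(a, v) a`. -/
def refl {V : Type v} [AddCommGroup V] [Module ℝ V] (B : LinearMap.BilinForm ℝ V) (a v : V) : V :=
  v - (2 * B a v) • a

/-- The root `s 0 * s 1 * ... * s (k - 1)` applied to the simple root of `s k`. -/
def invRoot {ι : Type} {V : Type v} [AddCommGroup V] [Module ℝ V] (B : LinearMap.BilinForm ℝ V)
    (α : ι → V) (s : ℕ → ι) (k : ℕ) : V :=
  (List.ofFn fun j : Fin k => s j).foldr (fun i v => refl B (α i) v) (α (s k))

/-- For the Coxeter matrix `M` with Gram matrix `G`: for every infinite reduced word, the set of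
lines spanned by the roots of its inversion set has exactly one accumulation point in the
projective space. -/
def OneAcc {n : ℕ} (M : CoxeterMatrix (Fin n)) (G : Matrix (Fin n) (Fin n) ℝ) : Prop :=
  ∀ (W : Type u) [Group W] (cs : CoxeterSystem M W)
    (V : Type v) [AddCommGroup V] [Module ℝ V] [TopologicalSpace V] [IsTopologicalAddGroup V]
    [ContinuousSMul ℝ V] [T2Space V] (α : Module.Basis (Fin n) ℝ V)
    (B : LinearMap.BilinForm ℝ V), (∀ i j, B (α i) (α j) = G i j) →
    ∀ s : ℕ → Fin n, (∀ k : ℕ, cs.IsReduced (List.ofFn fun j : Fin k => s j)) →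
      ∃! p : Projectivization ℝ V, @AccPt _ (projTop V) p
        (Filter.principal {q | ∃ k : ℕ, q.submodule = Submodule.span ℝ {invRoot B α s k}})

/-- Coxeter matrix of System A (the entry `0` stands for infinity). -/
def coxA : CoxeterMatrix (Fin 4) where
  M := !![1, 0, 0, 0; 0, 1, 0, 0; 0, 0, 1, 0; 0, 0, 0, 1]
  isSymm := by decide
  diagonal := by decide
  off_diagonal := by
    intro i j h
    fin_cases i <;> fin_cases j <;> first | exact absurd rfl h | simp

/-- Gram matrix of System A. -/
def gramA : Matrix (Fin 4) (Fin 4) ℝ :=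
  !![1, -2, -1, -1; -2, 1, -1, -1; -1, -1, 1, -6; -1, -1, -6, 1]

/-- Coxeter matrix of System B (the entry `0` stands for infinity). -/
def coxB : CoxeterMatrix (Fin 5) where
  M := !![1, 0, 2, 2, 0; 0, 1, 0, 2, 2; 2, 0, 1, 0, 2; 2, 2, 0, 1, 0; 0, 2, 2, 0, 1]
  isSymm := by decide
  diagonal := by decide
  off_diagonal := by
    intro i j h
    fin_cases i <;> fin_cases j <;> first | exact absurd rfl h | simp

/-- Gram matrix of System B. -/
def gramB : Matrix (Fin 5) (Fin 5) ℝ :=
  !![1, -2, 0, 0, -2; -2, 1, -2, 0, 0; 0, -2, 1, -2, 0; 0, 0, -2, 1, -2; -2, 0, 0, -2, 1]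

section General

variable {n : ℕ} {V : Type v} [AddCommGroup V] [Module ℝ V] [TopologicalSpace V]

theorem continuous_mk' :
    @Continuous _ _ _ (projTop V) (Projectivization.mk' ℝ : {v : V // v ≠ 0} → _) :=
  continuous_coinduced_rng

theorem t2_proj [IsTopologicalAddGroup V] [ContinuousSMul ℝ V] [T2Space V]
    (α : Module.Basis (Fin n) ℝ V) : @T2Space _ (projTop V) := by
  letI := projTop V
  let e := α.equivFunL
  have hN : ∀ v : V, v ≠ 0 → ∑ k, e v k * e v k ≠ 0 := by
    intro v hv h
    apply hv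
    apply e.injective
    rw [map_zero]
    funext k
    have := (Finset.sum_eq_zero_iff_of_nonneg (fun k _ => mul_self_nonneg (e v k))).1 h k
      (Finset.mem_univ _)
    exact mul_self_eq_zero.1 this
  let g : {v : V // v ≠ 0} → Fin n → Fin n → ℝ := fun v i j =>
    e v.1 i * e v.1 j / ∑ k, e v.1 k * e v.1 k
  have hg : ∀ (a b : {v : V // v ≠ 0}) (t : ℝ), a = t • (b : V) → g a = g b := by
    intro a b t h
    have ht : t ≠ 0 := by
      rintro rfl
      exact a.2 (by rw [h, zero_smul])
    funext i j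
    have hb := hN _ b.2
    simp only [g, h, map_smul, Pi.smul_apply, smul_eq_mul]
    have : ∑ k, t * e b.1 k * (t * e b.1 k) = t * t * ∑ k, e b.1 k * e b.1 k := by
      rw [Finset.mul_sum]
      exact Finset.sum_congr rfl fun k _ => by ring
    rw [this]
    field_simp
  let f : Projectivization ℝ V → Fin n → Fin n → ℝ := Projectivization.lift g hg
  have hfc : Continuous f := by
    rw [continuous_coinduced_dom]
    show Continuous g
    have he : ∀ i, Continuous fun v : {v : V // v ≠ 0} => e v.1 i := fun i =>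
      (continuous_apply i).comp (e.continuous.comp continuous_subtype_val)
    refine continuous_pi fun i => continuous_pi fun j => ?_
    exact ((he i).mul (he j)).div (continuous_finsetSum _ fun k _ => (he k).mul (he k))
      fun v => hN _ v.2
  have hfi : Function.Injective f := by
    intro p q hpq
    induction p using Projectivization.ind with | h v hv => ?_
    induction q using Projectivization.ind with | h w hw => ?_
    have h : g ⟨v, hv⟩ = g ⟨w, hw⟩ := hpq
    obtain ⟨j, hj⟩ : ∃ j, e v j ≠ 0 := by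
      by_contra hc
      push Not at hc
      exact hv (e.injective (by rw [map_zero]; exact funext hc))
    rw [Projectivization.mk_eq_mk_iff']
    refine ⟨(∑ k, e v k * e v k) * e w j / ((∑ k, e w k * e w k) * e v j), e.injective ?_⟩
    funext i
    have h1 : e v i * e v j / ∑ k, e v k * e v k = e w i * e w j / ∑ k, e w k * e w k :=
      congrFun (congrFun h i) j
    have h2 := hN v hv
    have h3 := hN w hw
    rw [div_eq_div_iff h2 h3] at h1
    rw [map_smul, Pi.smul_apply, smul_eq_mul, div_mul_eq_mul_div, div_eq_iff (mul_ne_zero h3 hj)]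
    linarith
  exact T2Space.of_injective_continuous hfi hfc

omit [TopologicalSpace V] in
theorem coord_refl (α : Module.Basis (Fin n) ℝ V) (B : LinearMap.BilinForm ℝ V)
    (G : Matrix (Fin n) (Fin n) ℝ) (hB : ∀ i j, B (α i) (α j) = G i j) (i : Fin n) (v : V) :
    α.equivFun (refl B (α i) v) =
      α.equivFun v - (2 * ∑ j, G i j * α.equivFun v j) • (Pi.single i 1 : Fin n → ℝ) := by
  have h1 : B (α i) v = ∑ j, G i j * α.equivFun v j := by
    conv_lhs => rw [← α.sum_equivFun v]
    rw [map_sum]
    exact Finset.sum_congr rfl fun j _ => by rw [map_smul, hB, smul_eq_mul, mul_comm]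
  have h2 : α.equivFun (α i) = Pi.single i 1 := by
    funext j
    rw [α.equivFun_self, Pi.single_apply]
    simp only [eq_comm]
  rw [refl, map_sub, map_smul, h1, h2]

omit [TopologicalSpace V] in
theorem coord_invRoot (α : Module.Basis (Fin n) ℝ V) (B : LinearMap.BilinForm ℝ V)
    (G : Matrix (Fin n) (Fin n) ℝ) (hB : ∀ i j, B (α i) (α j) = G i j)
    (σ : Fin n → Matrix (Fin n) (Fin n) ℝ)
    (hσ : ∀ i x, (σ i).mulVec x = x - (2 * ∑ j, G i j * x j) • (Pi.single i 1 : Fin n → ℝ))
    (s : ℕ → Fin n) (k : ℕ) :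
    α.equivFun (invRoot B α s k) = (W σ s k).mulVec (Pi.single (s k) 1) := by
  have key : ∀ (l : List (Fin n)) (v : V),
      α.equivFun (l.foldr (fun i v => refl B (α i) v) v) =
        (l.map σ).prod.mulVec (α.equivFun v) := by
    intro l v
    induction l with
    | nil => simp
    | cons i l ih =>
      rw [List.foldr_cons, coord_refl α B G hB, ← hσ, ih, List.map_cons, List.prod_cons,
        Matrix.mulVec_mulVec]
  have h2 : α.equivFun (α (s k)) = Pi.single (s k) 1 := by
    funext j
    rw [α.equivFun_self, Pi.single_apply]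
    simp only [eq_comm]
  rw [invRoot, key, h2, List.map_ofFn]
  rfl

theorem finishP [IsTopologicalAddGroup V] [ContinuousSMul ℝ V] [T2Space V]
    (α : Module.Basis (Fin n) ℝ V) (B : LinearMap.BilinForm ℝ V)
    (G : Matrix (Fin n) (Fin n) ℝ) (hB : ∀ i j, B (α i) (α j) = G i j)
    (σ : Fin n → Matrix (Fin n) (Fin n) ℝ)
    (hσ : ∀ i x, (σ i).mulVec x = x - (2 * ∑ j, G i j * x j) • (Pi.single i 1 : Fin n → ℝ))
    (s : ℕ → Fin n) (hinv : ∀ i x, (σ i).mulVec ((σ i).mulVec x) = x)
    (hs : ∀ k, s k ≠ s (k + 1))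
    (hpos : ∀ᶠ m in atTop, 0 < ∑ j, (W σ s m).mulVec (Pi.single (s m) (1 : ℝ)) j)
    (hconv : ∃ x, Tendsto (fun m => (∑ j, (W σ s m).mulVec (Pi.single (s m) (1 : ℝ)) j)⁻¹ •
      (W σ s m).mulVec (Pi.single (s m) (1 : ℝ))) atTop (𝓝 x)) :
    ∃! p : Projectivization ℝ V, @AccPt _ (projTop V) p
      (Filter.principal {q | ∃ k : ℕ, q.submodule = Submodule.span ℝ {invRoot B α s k}}) := by
  letI := projTop V
  haveI := t2_proj α
  have hc := coord_invRoot α B G hB σ hσ s
  have hne : ∀ k, invRoot B α s k ≠ 0 := by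
    intro k h
    have h1 := hc k
    rw [h, map_zero] at h1
    simpa using congrFun (W_inj σ s hinv k _ h1.symm) (s k)
  let a : ℕ → Projectivization ℝ V := fun k => Projectivization.mk ℝ (invRoot B α s k) (hne k)
  have hset : {q : Projectivization ℝ V |
      ∃ k : ℕ, q.submodule = Submodule.span ℝ {invRoot B α s k}} = Set.range a := by
    ext q
    constructor
    · rintro ⟨k, hk⟩
      exact ⟨k, Projectivization.submodule_injective hk.symm⟩
    · rintro ⟨k, rfl⟩
      exact ⟨k, rfl⟩
  rw [hset]
  obtain ⟨x, hx⟩ := hconv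
  set β : ℕ → Fin n → ℝ := fun m => (W σ s m).mulVec (Pi.single (s m) (1 : ℝ)) with hβ
  have hx1 : ∑ j, x j = 1 := by
    have h1 : Tendsto (fun m => ∑ j, ((∑ j, β m j)⁻¹ • β m) j) atTop (𝓝 (∑ j, x j)) :=
      tendsto_finsetSum _ fun j _ => (tendsto_pi_nhds.1 hx j)
    refine tendsto_nhds_unique h1 (tendsto_const_nhds.congr' ?_)
    filter_upwards [hpos] with m hm
    simp only [Pi.smul_apply, smul_eq_mul, ← Finset.mul_sum]
    exact (inv_mul_cancel₀ hm.ne').symm
  let e := α.equivFunL
  have hx0 : e.symm x ≠ 0 := by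
    intro h
    have : x = 0 := by simpa using congrArg e h
    rw [this] at hx1
    simp at hx1
  let c : ℕ → ℝ := fun m => if 0 < ∑ j, β m j then (∑ j, β m j)⁻¹ else 1
  have hc0 : ∀ m, c m ≠ 0 := by
    intro m
    simp only [c]
    split_ifs with h
    · exact inv_ne_zero h.ne'
    · exact one_ne_zero
  let y : ℕ → {v : V // v ≠ 0} := fun m => ⟨c m • invRoot B α s m, smul_ne_zero (hc0 m) (hne m)⟩
  have hy : Tendsto y atTop (𝓝 ⟨e.symm x, hx0⟩) := by
    rw [tendsto_subtype_rng]
    refine ((e.symm.continuous.tendsto x).comp hx).congr' ?_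
    filter_upwards [hpos] with m hm
    apply e.injective
    simp only [Function.comp_apply, ContinuousLinearEquiv.apply_symm_apply, y, map_smul, c]
    rw [if_pos hm]
    exact congrArg _ (hc m).symm
  have ha : Tendsto a atTop (𝓝 (Projectivization.mk' ℝ ⟨e.symm x, hx0⟩)) := by
    refine ((continuous_mk'.tendsto _).comp hy).congr fun m => ?_
    exact (Projectivization.mk_eq_mk_iff' ℝ _ _ (y m).2 (hne m)).2 ⟨c m, rfl⟩
  refine unique_accPt a _ ha (Eventually.of_forall fun m h => ?_)
  obtain ⟨t, ht⟩ := (Projectivization.mk_eq_mk_iff' ℝ _ _ (hne m) (hne (m + 1))).1 h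
  have h1 := congrArg α.equivFun ht
  rw [map_smul, hc, hc, W_succ_mulVec] at h1
  have h3 : (W σ s m).mulVec (t • (σ (s m)).mulVec (Pi.single (s (m + 1)) (1 : ℝ)) -
      (Pi.single (s m) (1 : ℝ) : Fin n → ℝ)) = 0 := by
    rw [Matrix.mulVec_sub, Matrix.mulVec_smul, h1, sub_self]
  have h4 := congrFun (W_inj σ s hinv m _ h3) (s (m + 1))
  have h6 : (Pi.single (s m) (1 : ℝ) : Fin n → ℝ) (s (m + 1)) = 0 :=
    Pi.single_eq_of_ne (hs m).symm _
  simp only [hσ, Pi.sub_apply, Pi.smul_apply, smul_eq_mul, h6, Pi.zero_apply, Pi.single_eq_same,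
    mul_zero, sub_zero, mul_one] at h4
  rw [h4, zero_smul] at ht
  exact hne m ht.symm

end General

/-- The reflection matrices. -/
def σM {n : ℕ} (G : Matrix (Fin n) (Fin n) ℝ) (i : Fin n) : Matrix (Fin n) (Fin n) ℝ :=
  Matrix.of fun a b => (if a = b then (1 : ℝ) else 0) - (if a = i then 2 * G i b else 0)

theorem σM_mulVec {n : ℕ} (G : Matrix (Fin n) (Fin n) ℝ) (i : Fin n) (x : Fin n → ℝ) :
    (σM G i).mulVec x = x - (2 * ∑ j, G i j * x j) • (Pi.single i 1 : Fin n → ℝ) := by
  funext a
  by_cases h : a = i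
  · subst h
    simp [σM, Matrix.mulVec, dotProduct, sub_mul, Finset.sum_sub_distrib, Finset.mul_sum,
      mul_assoc]
  · simp [σM, Matrix.mulVec, dotProduct, h]

theorem oneAcc_A : OneAcc.{u, v} coxA gramA := by
  intro W _ cs V _ _ _ _ _ _ α B hB s hs
  have hr : ∀ i x, (σM gramA i).mulVec x = rA i x := by
    intro i x
    rw [σM_mulVec]
    funext a
    fin_cases i <;> fin_cases a <;> simp [Fin.sum_univ_four, gramA, rA] <;> ring
  have hne : ∀ k, s k ≠ s (k + 1) := fun k h =>
    reduced_block cs s hs k 0 h.symm (fun j h1 h2 => by omega)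
  obtain ⟨h1, h2⟩ := convA (σM gramA) hr s hne
  exact finishP α B gramA hB (σM gramA) (σM_mulVec gramA) s
    (fun i x => by rw [hr, hr, rA_rA]) hne h1 h2

theorem oneAcc_B : OneAcc.{u, v} coxB gramB := by
  intro W _ cs V _ _ _ _ _ _ α B hB s hs
  have hr : ∀ i x, (σM gramB i).mulVec x = rB i x := by
    intro i x
    rw [σM_mulVec]
    funext a
    fin_cases i <;> fin_cases a <;> simp [Fin.sum_univ_five, gramB, rB] <;> ring
  have hne : ∀ k, s k ≠ s (k + 1) := fun k h =>
    reduced_block cs s hs k 0 h.symm (fun j h1 h2 => by omega)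
  have hM : ∀ i j : Fin 5, i ≠ j → ¬ adjB i j → coxB i j = 2 := by
    intro i j h1 h2
    fin_cases i <;> fin_cases j <;>
      first | exact absurd rfl h1 | exact absurd (by decide) h2 | rfl
  have hadj : ∀ i d, s (i + d + 1) = s i → ∃ j, i < j ∧ j ≤ i + d ∧ adjB (s j) (s i) := by
    intro i d h
    by_contra hc
    refine reduced_block cs s hs i d h ?_
    intro j h1 h2
    by_cases hji : s j = s i
    · rw [hji]
    · have hadj : ¬ adjB (s j) (s i) := fun h' => hc ⟨j, h1, h2, h'⟩
      have h3 := cs.simple_mul_simple_pow (s j) (s i)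
      rw [hM _ _ hji hadj, pow_two] at h3
      have h4 := cs.simple_mul_simple_self (s j)
      have h5 := cs.simple_mul_simple_self (s i)
      set a := cs.simple (s j)
      set b := cs.simple (s i)
      show a * b = b * a
      calc a * b = a * (a * b * (a * b)) * b := by rw [h3, mul_one]
        _ = (a * a) * (b * a) * (b * b) := by simp only [mul_assoc]
        _ = b * a := by rw [h4, h5, one_mul, mul_one]
  obtain ⟨h1, h2⟩ := convB (σM gramB) hr s hadj
  exact finishP α B gramB hB (σM gramB) (σM_mulVec gramB) s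
    (fun i x => by rw [hr, hr, rB_rB]) hne h1 h2

end Pool.Agent.Lib.MP_e21d7a_al.Proj
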