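import Pool.Agent.Lib.MP_e21d7a_al.SysA

set_option autoImplicit false

namespace Pool.Agent.Lib.MP_e21d7a_al

open Filter Topology

theorem convB (σ : Fin 5 → Matrix (Fin 5) (Fin 5) ℝ) (hσ : ∀ i x, (σ i).mulVec x = rB i x)
    (s : ℕ → Fin 5)
    (hs : ∀ i d, s (i + d + 1) = s i → ∃ j, i < j ∧ j ≤ i + d ∧ adjB (s j) (s i)) :
    (∀ᶠ m in atTop, 0 < ∑ j, (W σ s m).mulVec (Pi.single (s m) (1 : ℝ)) j) ∧
    ∃ x, Tendsto (fun m => (∑ j, (W σ s m).mulVec (Pi.single (s m) (1 : ℝ)) j)⁻¹ •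
      (W σ s m).mulVec (Pi.single (s m) (1 : ℝ))) atTop (𝓝 x) := by
  have hinv : ∀ i x, (σ i).mulVec ((σ i).mulVec x) = x := by
    intro i x; rw [hσ, hσ, rB_rB]
  have hne : ∀ k, s k ≠ s (k + 1) := by
    intro k h
    obtain ⟨j, h1, h2, _⟩ := hs k 0 h.symm
    omega
  have hq := fun k => (stB_ok s hs k).2
  let K : ℕ → Set (Fin 5 → ℝ) := fun k =>
    {y | ∃ x, CB (stB s k) x ∧ y = (W σ s (k + 1)).mulVec x}
  have hstep := fun k x (hx : CB (stB s (k + 1)) x) =>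
    SB_elim _ _ _ (step_S (stB s k) (s (k + 1)) (hq k) x hx)
  have hanti : ∀ k, K (k + 1) ⊆ K k := by
    rintro k y ⟨x, hx, rfl⟩
    exact ⟨_, (hstep k x hx).1, by rw [W_succ_mulVec, hσ]⟩
  have hmono : ∀ {a b : ℕ}, a ≤ b → K b ⊆ K a := fun {a b} h =>
    (antitone_nat_of_succ_le hanti) h
  have h0 : ∀ y ∈ K 0, ∀ i, -2 * (∑ j, y j) ≤ y i ∧ y i ≤ 2 * (∑ j, y j) := by
    rintro y ⟨x, hx, rfl⟩ i
    rw [W_succ_mulVec, W_zero, Matrix.one_mulVec, hσ]
    exact CB_init _ x hx i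
  -- pulling a root back to the last letter adjacent to it
  have hback : ∀ m e : ℕ, (∀ j, m ≤ j → j < m + e → s j ≠ s (m + e) ∧ ¬ adjB (s j) (s (m + e))) ∨
      ∃ j, m ≤ j ∧ adjB (s j) (s (m + e)) ∧
        (W σ s (m + e)).mulVec (Pi.single (s (m + e)) (1 : ℝ)) =
          (W σ s j).mulVec (rB (s j) (Pi.single (s (m + e)) (1 : ℝ))) := by
    intro m e
    set n := m + e with hn
    have key : ∀ d, d ≤ n → ((∀ j, n - d ≤ j → j < n → s j ≠ s n ∧ ¬ adjB (s j) (s n)) ∧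
        (W σ s n).mulVec (Pi.single (s n) (1 : ℝ)) =
          (W σ s (n - d)).mulVec (Pi.single (s n) (1 : ℝ))) ∨
        ∃ j, n - d ≤ j ∧ adjB (s j) (s n) ∧
          (W σ s n).mulVec (Pi.single (s n) (1 : ℝ)) =
            (W σ s j).mulVec (rB (s j) (Pi.single (s n) (1 : ℝ))) := by
      intro d
      induction d with
      | zero => intro _; exact Or.inl ⟨fun j h1 h2 => by omega, rfl⟩
      | succ d ih =>
        intro hd
        rcases ih (by omega) with ⟨h1, h2⟩ | ⟨j, h1, h2, h3⟩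
        · obtain ⟨i, hi⟩ : ∃ i, n - d = i + 1 := ⟨n - d - 1, by omega⟩
          have hi' : n - (d + 1) = i := by omega
          rw [hi, W_succ_mulVec, hσ] at h2
          rw [hi']
          by_cases hadj : adjB (s i) (s n)
          · exact Or.inr ⟨i, le_rfl, hadj, h2⟩
          · have hne' : s i ≠ s n := by
              intro h
              have hn' : n = i + d + 1 := by omega
              obtain ⟨j, hj1, hj2, hj3⟩ := hs i d (hn' ▸ h.symm)
              exact (h1 j (by omega) (by omega)).2 (h ▸ hj3)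
            refine Or.inl ⟨fun j hj1 hj2 => ?_, by rw [h2, rB_comm _ _ hne' hadj]⟩
            rcases Nat.lt_or_ge i j with h | h
            · exact h1 j (by omega) hj2
            · have : j = i := by omega
              rw [this]; exact ⟨hne', hadj⟩
        · exact Or.inr ⟨j, by omega, h2, h3⟩
    rcases key e (by omega) with ⟨h1, _⟩ | ⟨j, h1, h2, h3⟩
    · exact Or.inl fun j a b => h1 j (by omega) b
    · exact Or.inr ⟨j, by omega, h2, h3⟩
  have hβ : ∀ k, ∀ᶠ n in atTop, (W σ s n).mulVec (Pi.single (s n) (1 : ℝ)) ∈ K k := by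
    intro k
    let bad : Set ℕ := {n | k + 1 ≤ n ∧ ∀ j, k + 1 ≤ j → j < n → s j ≠ s n}
    have hfin : bad.Finite := by
      refine Set.Finite.of_finite_image (f := s) (Set.toFinite _) ?_
      intro a ha b hb hab
      by_contra hne'
      rcases Nat.lt_or_gt_of_ne hne' with h | h
      · exact hb.2 a ha.1 h hab
      · exact ha.2 b hb.1 h hab.symm
    obtain ⟨N, hN⟩ := hfin.bddAbove
    refine eventually_atTop.2 ⟨max (N + 1) (k + 1), fun n hn => ?_⟩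
    have hn1 : N + 1 ≤ n := le_of_max_le_left hn
    have hn2 : k + 1 ≤ n := le_of_max_le_right hn
    obtain ⟨e, rfl⟩ := Nat.exists_eq_add_of_le hn2
    rcases hback (k + 1) e with h | ⟨j, h1, h2, h3⟩
    · have : k + 1 + e ∈ bad := ⟨hn2, fun j a b => (h j a b).1⟩
      have := hN this
      omega
    · obtain ⟨i, rfl⟩ : ∃ i, j = i + 1 := ⟨j - 1, by omega⟩
      exact hmono (show k ≤ i by omega) ⟨_, CB_root _ _ _ (hq i) h2, h3⟩
  have hpos : ∀ᶠ m in atTop, 0 < ∑ j, (W σ s m).mulVec (Pi.single (s m) (1 : ℝ)) j := by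
    filter_upwards [hβ 0] with m hm
    refine sum_pos_of_bounds _ (fun h => ?_) (h0 _ hm)
    simpa using congrFun (W_inj σ s hinv m _ h) (s m)
  refine ⟨hpos, ?_⟩
  refine conv_of_cones K hanti h0 (1 / 2000) (by norm_num) (by norm_num) ?_ _ hβ hpos
  intro N
  refine ⟨N, le_rfl, N + 1, (W σ s (N + 1)).mulVec (fun _ => (1 : ℝ)), ⟨_, CB_one _, rfl⟩, ?_⟩
  rintro y ⟨x, hx, rfl⟩
  obtain ⟨_, h1, h2, h3⟩ := hstep N x hx
  refine ⟨20 * (x 0 + x 1 + x 2 + x 3 + x 4), by linarith, ⟨_, h2, ?_⟩, ⟨_, h3, ?_⟩⟩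
  · rw [W_succ_mulVec σ s (N + 1), hσ, Matrix.mulVec_sub, Matrix.mulVec_smul]
  · rw [W_succ_mulVec σ s (N + 1), hσ, Matrix.mulVec_sub, Matrix.mulVec_smul]

theorem convA (σ : Fin 4 → Matrix (Fin 4) (Fin 4) ℝ) (hσ : ∀ i x, (σ i).mulVec x = rA i x)
    (s : ℕ → Fin 4) (hs : ∀ k, s k ≠ s (k + 1)) :
    (∀ᶠ m in atTop, 0 < ∑ j, (W σ s m).mulVec (Pi.single (s m) (1 : ℝ)) j) ∧
    ∃ x, Tendsto (fun m => (∑ j, (W σ s m).mulVec (Pi.single (s m) (1 : ℝ)) j)⁻¹ •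
      (W σ s m).mulVec (Pi.single (s m) (1 : ℝ))) atTop (𝓝 x) := by
  have hinv : ∀ i x, (σ i).mulVec ((σ i).mulVec x) = x := by
    intro i x; rw [hσ, hσ, rA_rA]
  let K : ℕ → Set (Fin 4 → ℝ) := fun k => {y | ∃ x, CA (s k) x ∧ y = (W σ s k).mulVec x}
  have hanti : ∀ k, K (k + 1) ⊆ K k := by
    rintro k y ⟨x, hx, rfl⟩
    exact ⟨_, CA_weak _ _ (hs k) x hx, by rw [W_succ_mulVec, hσ]⟩
  have hmono : ∀ {a b : ℕ}, a ≤ b → K b ⊆ K a := fun {a b} h =>
    (antitone_nat_of_succ_le hanti) h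
  have h0 : ∀ y ∈ K 0, ∀ i, -2 * (∑ j, y j) ≤ y i ∧ y i ≤ 2 * (∑ j, y j) := by
    rintro y ⟨x, hx, rfl⟩ i
    rw [W_zero, Matrix.one_mulVec]
    exact CA_bound _ x hx i
  have hβ : ∀ k, (W σ s k).mulVec (Pi.single (s k) (1 : ℝ)) ∈ K k :=
    fun k => ⟨_, CA_single _, rfl⟩
  have hKpos : ∀ k x, CA (s k) x → x ≠ 0 → 0 < ∑ j, (W σ s k).mulVec x j := by
    intro k x hx hx0
    exact sum_pos_of_bounds _ (fun h => hx0 (W_inj σ s hinv k x h))
      (h0 _ (hmono (Nat.zero_le k) ⟨x, hx, rfl⟩))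
  have hpos : ∀ m, 0 < ∑ j, (W σ s m).mulVec (Pi.single (s m) (1 : ℝ)) j := by
    intro m
    refine hKpos m _ (CA_single _) ?_
    intro h
    simpa using congrFun h (s m)
  refine ⟨Eventually.of_forall hpos, ?_⟩
  by_cases hbr : ∀ N, ∃ k, N ≤ k ∧ ¬ (s (k + 2) = s k ∧ parA (s k) (s (k + 1)))
  · refine conv_of_cones K hanti h0 (1 / 1200) (by norm_num) (by norm_num) ?_ _ ?_
      (Eventually.of_forall hpos)
    · intro N
      obtain ⟨k, hk, hk'⟩ := hbr N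
      refine ⟨k, hk, k + 2, (W σ s k).mulVec (cA (s k)), ⟨_, CA_c _, rfl⟩, ?_⟩
      rintro y ⟨x, hx, rfl⟩
      obtain ⟨h1, h2⟩ := CA_strict (s k) (s (k + 1)) (s (k + 2)) (hs k) (hs (k + 1)) hk' x hx
      have hb := CA_bound _ x hx 0
      rw [Fin.sum_univ_four] at hb
      refine ⟨60 * (x 0 + x 1 + x 2 + x 3), by linarith [hb.1, hb.2], ⟨_, h1, ?_⟩, ⟨_, h2, ?_⟩⟩
      · rw [W_succ_mulVec, W_succ_mulVec, hσ, hσ, Matrix.mulVec_sub, Matrix.mulVec_smul]
      · rw [W_succ_mulVec, W_succ_mulVec, hσ, hσ, Matrix.mulVec_sub, Matrix.mulVec_smul]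
    · intro k
      exact eventually_atTop.2 ⟨k, fun m hm => hmono hm (hβ m)⟩
  · push Not at hbr
    obtain ⟨N, hN⟩ := hbr
    set d := (W σ s N).mulVec (Pi.single (s N) (1 : ℝ) + Pi.single (s (N + 1)) (1 : ℝ)) with hd
    set b := (W σ s N).mulVec (Pi.single (s N) (1 : ℝ)) with hb
    have hdpos : 0 < ∑ j, d j :=
      hKpos N _ (par_cone _ _ (hN N le_rfl).2) (par_ne _ _ (hN N le_rfl).2)
    have hdm : ∀ m : ℕ, (W σ s (N + m)).mulVec
        (Pi.single (s (N + m)) (1 : ℝ) + Pi.single (s (N + m + 1)) (1 : ℝ)) = d := by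
      intro m
      induction m with
      | zero => rfl
      | succ m ih =>
        obtain ⟨h1, h2⟩ := hN (N + m) (by omega)
        have e1 : N + (m + 1) = N + m + 1 := by omega
        rw [e1, W_succ_mulVec, hσ, show N + m + 1 + 1 = N + m + 2 by omega, h1, add_comm
          (Pi.single (s (N + m + 1)) (1 : ℝ) : Fin 4 → ℝ), par_fix _ _ h2, ih]
    have hbm : ∀ m : ℕ, (W σ s (N + m)).mulVec (Pi.single (s (N + m)) (1 : ℝ)) =
        b + (m : ℝ) • d := by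
      intro m
      induction m with
      | zero => simp [hb]
      | succ m ih =>
        obtain ⟨h1, h2⟩ := hN (N + m) (by omega)
        have e1 : N + (m + 1) = N + m + 1 := by omega
        rw [e1, W_succ_mulVec, hσ, par_one _ _ h2, Matrix.mulVec_add, ih, hdm]
        push_cast
        rw [add_smul, one_smul, add_assoc]
    refine ⟨(∑ j, d j)⁻¹ • d, ?_⟩
    rw [← tendsto_add_atTop_iff_nat N]
    have hlim : Tendsto (fun m : ℕ => ((m : ℝ)⁻¹ * ∑ j, b j + ∑ j, d j)⁻¹ • ((m : ℝ)⁻¹ • b + d))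
        atTop (𝓝 ((0 * ∑ j, b j + ∑ j, d j)⁻¹ • ((0 : ℝ) • b + d))) := by
      have h0 : Tendsto (fun m : ℕ => (m : ℝ)⁻¹) atTop (𝓝 0) := tendsto_inv_atTop_nhds_zero_nat
      refine Tendsto.smul (Tendsto.inv₀ ((h0.mul_const _).add_const _) ?_)
        ((h0.smul_const _).add_const _)
      rw [zero_mul, zero_add]; exact hdpos.ne'
    rw [zero_mul, zero_add, zero_smul, zero_add] at hlim
    refine hlim.congr' (eventually_atTop.2 ⟨1, fun m hm => ?_⟩)
    have hm0 : (m : ℝ) ≠ 0 := by exact_mod_cast (by omega : m ≠ 0)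
    have e1 : b + (m : ℝ) • d = (m : ℝ) • ((m : ℝ)⁻¹ • b + d) := by
      rw [smul_add, smul_smul, mul_inv_cancel₀ hm0, one_smul]
    have e2 : ∑ j, (b + (m : ℝ) • d) j = (m : ℝ) * ((m : ℝ)⁻¹ * ∑ j, b j + ∑ j, d j) := by
      simp only [Pi.add_apply, Pi.smul_apply, smul_eq_mul, Finset.sum_add_distrib,
        ← Finset.mul_sum]
      field_simp
    show _ = (∑ j, (W σ s (m + N)).mulVec (Pi.single (s (m + N)) (1 : ℝ)) j)⁻¹ •
      (W σ s (m + N)).mulVec (Pi.single (s (m + N)) (1 : ℝ))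
    rw [add_comm m N, hbm, e2, e1, smul_smul, mul_inv]
    congr 1
    field_simp

end Pool.Agent.Lib.MP_e21d7a_al
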