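import Mathlib

-- part Pool.Agent.Lib.MP_e21d7a_al.Abstract
section

set_option autoImplicit false

namespace Pool.Agent.Lib.MP_e21d7a_al

open Filter Topology

/-- Oscillation contraction along a decreasing family of cones. -/
theorem osc_small {E : Type*} [AddCommGroup E] [Module ℝ E] (K : ℕ → Set E) (φ ψ : E →ₗ[ℝ] ℝ)
    (hanti : ∀ k, K (k + 1) ⊆ K k)
    (M : ℝ) (hM : 0 ≤ M) (h0 : ∀ y ∈ K 0, -M * ψ y ≤ φ y ∧ φ y ≤ M * ψ y)
    (hψ : ∀ y ∈ K 0, 0 ≤ ψ y) (δ : ℝ) (hδ : 0 < δ) (hδ1 : δ ≤ 1)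
    (hstrict : ∀ N, ∃ k, N ≤ k ∧ ∃ k', ∃ c ∈ K k, ∀ y ∈ K k', ∃ l : ℝ, 0 ≤ l ∧
      y - (δ * l) • c ∈ K k ∧ l • c - y ∈ K k) :
    ∀ ε : ℝ, 0 < ε → ∃ k, ∃ lo : ℝ, ∀ y ∈ K k, lo * ψ y ≤ φ y ∧ φ y ≤ (lo + ε) * ψ y := by
  have hmono : ∀ {a b : ℕ}, a ≤ b → K b ⊆ K a := fun {a b} h =>
    (antitone_nat_of_succ_le hanti) h
  have key : ∀ n : ℕ, ∃ k, ∃ lo : ℝ, ∀ y ∈ K k,
      lo * ψ y ≤ φ y ∧ φ y ≤ (lo + 2 * M * (1 - δ / 2) ^ n) * ψ y := by
    intro n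
    induction n with
    | zero =>
      refine ⟨0, -M, fun y hy => ?_⟩
      obtain ⟨h1, h2⟩ := h0 y hy
      refine ⟨h1, ?_⟩
      have : (-M + 2 * M * (1 - δ / 2) ^ 0) = M := by ring
      rw [this]; exact h2
    | succ n ih =>
      obtain ⟨k0, lo, hk0⟩ := ih
      obtain ⟨k, hk, k', c, hc, hy⟩ := hstrict k0
      set w := 2 * M * (1 - δ / 2) ^ n with hw
      have hw0 : 0 ≤ w := by
        have : 0 ≤ 1 - δ / 2 := by linarith
        positivity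
      have hw' : 2 * M * (1 - δ / 2) ^ (n + 1) = w * (1 - δ / 2) := by rw [hw]; ring
      have hb : ∀ y ∈ K k, lo * ψ y ≤ φ y ∧ φ y ≤ (lo + w) * ψ y :=
        fun y hy => hk0 y (hmono hk hy)
      have hp : ∀ y ∈ K k, 0 ≤ ψ y := fun y hy => hψ y (hmono (Nat.zero_le _) hy)
      obtain ⟨hc1, hc2⟩ := hb c hc
      by_cases hcase : w * ψ c / 2 ≤ φ c - lo * ψ c
      · refine ⟨k', lo + δ * w / 2, fun y hyk => ?_⟩
        obtain ⟨l, hl, h1, h2⟩ := hy y hyk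
        obtain ⟨a1, a2⟩ := hb _ h1
        have a3 := hp _ h2
        simp only [map_sub, map_smul, smul_eq_mul] at a1 a2 a3
        rw [hw']
        have hdl : 0 ≤ δ * l := by positivity
        have b1 : δ * l * (w * ψ c / 2) ≤ δ * l * (φ c - lo * ψ c) :=
          mul_le_mul_of_nonneg_left hcase hdl
        have b2 : δ * w / 2 * ψ y ≤ δ * w / 2 * (l * ψ c) :=
          mul_le_mul_of_nonneg_left (by linarith) (by positivity)
        have b3 : 0 ≤ δ * l * ((lo + w) * ψ c - φ c) := mul_nonneg hdl (by linarith)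
        constructor
        · nlinarith
        · nlinarith
      · refine ⟨k', lo, fun y hyk => ?_⟩
        obtain ⟨l, hl, h1, h2⟩ := hy y hyk
        obtain ⟨a1, a2⟩ := hb _ h1
        have a3 := hp _ h2
        simp only [map_sub, map_smul, smul_eq_mul] at a1 a2 a3
        rw [hw']
        have hdl : 0 ≤ δ * l := by positivity
        have hcase' : w * ψ c / 2 ≤ (lo + w) * ψ c - φ c := by
          push Not at hcase; nlinarith
        have b1 : δ * l * (w * ψ c / 2) ≤ δ * l * ((lo + w) * ψ c - φ c) :=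
          mul_le_mul_of_nonneg_left hcase' hdl
        have b2 : δ * w / 2 * ψ y ≤ δ * w / 2 * (l * ψ c) :=
          mul_le_mul_of_nonneg_left (by linarith) (by positivity)
        have b3 : 0 ≤ δ * l * (φ c - lo * ψ c) := mul_nonneg hdl (by linarith)
        constructor
        · nlinarith
        · nlinarith
  intro ε hε
  have ht : Tendsto (fun n : ℕ => 2 * M * (1 - δ / 2) ^ n) atTop (𝓝 (2 * M * 0)) :=
    (tendsto_pow_atTop_nhds_zero_of_lt_one (by linarith) (by linarith)).const_mul _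
  rw [mul_zero] at ht
  obtain ⟨n, hn⟩ := (ht.eventually (gt_mem_nhds hε)).exists
  obtain ⟨k, lo, hk⟩ := key n
  refine ⟨k, lo, fun y hy => ⟨(hk y hy).1, (hk y hy).2.trans ?_⟩⟩
  exact mul_le_mul_of_nonneg_right (by linarith) (hψ y (hmono (Nat.zero_le _) hy))

/-- Convergence of normalised vectors lying eventually in every cone. -/
theorem conv_of_cones {n : ℕ} (K : ℕ → Set (Fin n → ℝ))
    (hanti : ∀ k, K (k + 1) ⊆ K k)
    (h0 : ∀ y ∈ K 0, ∀ i, -2 * (∑ j, y j) ≤ y i ∧ y i ≤ 2 * (∑ j, y j))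
    (δ : ℝ) (hδ : 0 < δ) (hδ1 : δ ≤ 1)
    (hstrict : ∀ N, ∃ k, N ≤ k ∧ ∃ k', ∃ c ∈ K k, ∀ y ∈ K k', ∃ l : ℝ, 0 ≤ l ∧
      y - (δ * l) • c ∈ K k ∧ l • c - y ∈ K k)
    (β : ℕ → Fin n → ℝ) (hβ : ∀ k, ∀ᶠ m in atTop, β m ∈ K k)
    (hpos : ∀ᶠ m in atTop, 0 < ∑ j, β m j) :
    ∃ x, Tendsto (fun m => (∑ j, β m j)⁻¹ • β m) atTop (𝓝 x) := by
  have hc : ∀ i : Fin n, ∃ x : ℝ, Tendsto (fun m => (∑ j, β m j)⁻¹ * β m i) atTop (𝓝 x) := by
    intro i
    apply cauchySeq_tendsto_of_complete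
    rw [Metric.cauchySeq_iff]
    intro ε hε
    let ψ : (Fin n → ℝ) →ₗ[ℝ] ℝ := ∑ j, LinearMap.proj j
    have hψ : ∀ y, ψ y = ∑ j, y j := by intro y; simp [ψ]
    obtain ⟨k, lo, hk⟩ := osc_small K (LinearMap.proj i) ψ hanti 2 (by norm_num)
      (fun y hy => by simpa [hψ] using h0 y hy i)
      (fun y hy => by have := h0 y hy i; rw [hψ]; linarith [this.1, this.2])
      δ hδ hδ1 hstrict (ε / 2) (by linarith)
    obtain ⟨N, hN⟩ := eventually_atTop.1 ((hβ k).and hpos)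
    have hb : ∀ m, N ≤ m → lo ≤ (∑ j, β m j)⁻¹ * β m i ∧ (∑ j, β m j)⁻¹ * β m i ≤ lo + ε / 2 := by
      intro m hm
      obtain ⟨h1, h2⟩ := hN m hm
      obtain ⟨h3, h4⟩ := hk _ h1
      simp only [hψ, LinearMap.proj_apply] at h3 h4
      rw [inv_mul_eq_div, le_div_iff₀ h2, div_le_iff₀ h2]
      exact ⟨h3, h4⟩
    refine ⟨N, fun a ha b hb' => ?_⟩
    obtain ⟨h1, h2⟩ := hb a ha
    obtain ⟨h3, h4⟩ := hb b hb'
    rw [Real.dist_eq, abs_lt]
    constructor <;> linarith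
  choose x hx using hc
  exact ⟨x, tendsto_pi_nhds.2 fun i => by simpa using hx i⟩

/-- A convergent sequence that is not eventually constant has exactly one accumulation point. -/
theorem unique_accPt {X : Type*} [TopologicalSpace X] [T2Space X] (a : ℕ → X) (x : X)
    (ha : Tendsto a atTop (𝓝 x)) (hne : ∀ᶠ m in atTop, a m ≠ a (m + 1)) :
    ∃! y, AccPt y (𝓟 (Set.range a)) := by
  refine ⟨x, ?_, ?_⟩
  · show AccPt x _
    rw [accPt_iff_nhds]
    intro U hU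
    obtain ⟨N, hN⟩ := eventually_atTop.1 ((ha.eventually hU).and hne)
    by_cases h : a N = x
    · refine ⟨a (N + 1), ⟨(hN (N + 1) (Nat.le_succ _)).1, ⟨_, rfl⟩⟩, ?_⟩
      intro h'
      exact (hN N le_rfl).2 (h.trans h'.symm)
    · exact ⟨a N, ⟨(hN N le_rfl).1, ⟨_, rfl⟩⟩, h⟩
  · intro y hy
    by_contra hyx
    obtain ⟨V, U, hV, hU, hyV, hxU, hdis⟩ := t2_separation hyx
    obtain ⟨N, hN⟩ := eventually_atTop.1 (ha.eventually (hU.mem_nhds hxU))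
    have h1 : AccPt y (𝓟 (V ∩ Set.range a)) := hy.nhds_inter (hV.mem_nhds hyV)
    have h2 : (V ∩ Set.range a).Finite := by
      refine ((Set.finite_lt_nat N).image a).subset ?_
      rintro z ⟨hzV, m, rfl⟩
      refine ⟨m, ?_, rfl⟩
      by_contra hm
      exact Set.disjoint_left.1 hdis hzV (hN m (not_lt.1 hm))
    exact Set.Infinite.of_accPt h1 h2

/-- Partial products. -/
noncomputable def W {n : ℕ} (σ : Fin n → Matrix (Fin n) (Fin n) ℝ) (s : ℕ → Fin n) (k : ℕ) :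
    Matrix (Fin n) (Fin n) ℝ := (List.ofFn fun j : Fin k => σ (s j)).prod

theorem W_zero {n : ℕ} (σ : Fin n → Matrix (Fin n) (Fin n) ℝ) (s : ℕ → Fin n) :
    W σ s 0 = 1 := by simp [W]

theorem W_succ {n : ℕ} (σ : Fin n → Matrix (Fin n) (Fin n) ℝ) (s : ℕ → Fin n) (k : ℕ) :
    W σ s (k + 1) = W σ s k * σ (s k) := by
  unfold W
  rw [List.ofFn_succ_last]
  simp

theorem W_succ_mulVec {n : ℕ} (σ : Fin n → Matrix (Fin n) (Fin n) ℝ) (s : ℕ → Fin n) (k : ℕ)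
    (x : Fin n → ℝ) : (W σ s (k + 1)).mulVec x = (W σ s k).mulVec ((σ (s k)).mulVec x) := by
  rw [W_succ, Matrix.mulVec_mulVec]

theorem W_inj {n : ℕ} (σ : Fin n → Matrix (Fin n) (Fin n) ℝ) (s : ℕ → Fin n)
    (hσ : ∀ i x, (σ i).mulVec ((σ i).mulVec x) = x) (k : ℕ) (x : Fin n → ℝ)
    (hx : (W σ s k).mulVec x = 0) : x = 0 := by
  induction k generalizing x with
  | zero => simpa [W_zero] using hx
  | succ k ih =>
    rw [W_succ_mulVec] at hx
    have := ih _ hx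
    rw [← hσ (s k) x, this, Matrix.mulVec_zero]

/-- The final step: convergence of the normalised roots gives the unique accumulation point. -/
theorem finish {n : ℕ} (σ : Fin n → Matrix (Fin n) (Fin n) ℝ) (s : ℕ → Fin n)
    (hσ : ∀ i x, (σ i).mulVec ((σ i).mulVec x) = x)
    (hσ2 : ∀ i j, i ≠ j → (σ i).mulVec (Pi.single j 1) j = 1)
    (hs : ∀ k, s k ≠ s (k + 1))
    (hpos : ∀ᶠ m in atTop, 0 < ∑ j, (W σ s m).mulVec (Pi.single (s m) (1 : ℝ)) j)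
    (hconv : ∃ x, Tendsto (fun m => (∑ j, (W σ s m).mulVec (Pi.single (s m) (1 : ℝ)) j)⁻¹ •
      (W σ s m).mulVec (Pi.single (s m) (1 : ℝ))) atTop (𝓝 x)) :
    ∃! x : Fin n → ℝ, AccPt x (Filter.principal (Set.range fun k : ℕ =>
          (∑ i, (Matrix.mulVec (List.ofFn fun j : Fin k => σ (s j)).prod
              (Pi.single (s k) (1 : ℝ) : Fin n → ℝ)) i)⁻¹ •
            Matrix.mulVec (List.ofFn fun j : Fin k => σ (s j)).prod
              (Pi.single (s k) (1 : ℝ) : Fin n → ℝ))) := by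
  obtain ⟨x, hx⟩ := hconv
  refine unique_accPt _ x hx ?_
  obtain ⟨N, hN⟩ := eventually_atTop.1 hpos
  refine eventually_atTop.2 ⟨N, fun m hm h => ?_⟩
  have h2 := hN (m + 1) (by omega)
  change (∑ j, (W σ s m).mulVec (Pi.single (s m) (1 : ℝ)) j)⁻¹ •
      (W σ s m).mulVec (Pi.single (s m) (1 : ℝ)) =
    (∑ j, (W σ s (m + 1)).mulVec (Pi.single (s (m + 1)) (1 : ℝ)) j)⁻¹ •
      (W σ s (m + 1)).mulVec (Pi.single (s (m + 1)) (1 : ℝ)) at h
  set a := (∑ j, (W σ s m).mulVec (Pi.single (s m) (1 : ℝ)) j)⁻¹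
  set b := (∑ j, (W σ s (m + 1)).mulVec (Pi.single (s (m + 1)) (1 : ℝ)) j)⁻¹ with hb
  have hb0 : 0 < b := inv_pos.2 h2
  rw [W_succ_mulVec] at h
  have h3 : (W σ s m).mulVec (a • (Pi.single (s m) (1 : ℝ) : Fin n → ℝ) -
      b • (σ (s m)).mulVec (Pi.single (s (m + 1)) (1 : ℝ))) = 0 := by
    rw [Matrix.mulVec_sub, Matrix.mulVec_smul, Matrix.mulVec_smul, h, sub_self]
  have h4 := congrFun (W_inj σ s hσ m _ h3) (s (m + 1))
  have h5 := hσ2 _ _ (hs m)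
  have h6 : (Pi.single (s m) (1 : ℝ) : Fin n → ℝ) (s (m + 1)) = 0 :=
    Pi.single_eq_of_ne (hs m).symm _
  simp only [Pi.sub_apply, Pi.smul_apply, smul_eq_mul, h5, h6, Pi.zero_apply] at h4
  linarith

/-- A nonzero vector in the initial cone has positive coordinate sum. -/
theorem sum_pos_of_bounds {n : ℕ} (y : Fin n → ℝ) (hy : y ≠ 0)
    (h : ∀ i, -2 * (∑ j, y j) ≤ y i ∧ y i ≤ 2 * (∑ j, y j)) : 0 < ∑ j, y j := by
  by_contra hc
  apply hy
  funext i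
  have := h i
  push Not at hc
  simp only [Pi.zero_apply]
  linarith [this.1, this.2]

/-- In a reduced infinite word, between two equal letters there is a letter not commuting
with them. -/
theorem reduced_block {B W' : Type*} [Group W'] {M : CoxeterMatrix B} (cs : CoxeterSystem M W')
    (s : ℕ → B) (hs : ∀ k : ℕ, cs.IsReduced (List.ofFn fun j : Fin k => s j))
    (i d : ℕ) (heq : s (i + d + 1) = s i)
    (hc : ∀ j, i < j → j ≤ i + d → Commute (cs.simple (s j)) (cs.simple (s i))) : False := by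
  have hw : ∀ k : ℕ, cs.wordProd (List.ofFn fun j : Fin (k + 1) => s j) =
      cs.wordProd (List.ofFn fun j : Fin k => s j) * cs.simple (s k) := by
    intro k
    rw [List.ofFn_succ_last, cs.wordProd_append]
    simp
  have key : ∀ e, e ≤ d → ∃ g : W', cs.length g ≤ i + e ∧
      cs.wordProd (List.ofFn fun j : Fin (i + e + 1) => s j) = g * cs.simple (s i) := by
    intro e
    induction e with
    | zero =>
      intro _
      refine ⟨_, ?_, hw i⟩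
      have := cs.length_wordProd_le (List.ofFn fun j : Fin i => s j)
      simpa using this
    | succ e ih =>
      intro he
      obtain ⟨g, hg1, hg2⟩ := ih (by omega)
      refine ⟨g * cs.simple (s (i + e + 1)), ?_, ?_⟩
      · have := cs.length_mul_le g (cs.simple (s (i + e + 1)))
        rw [cs.length_simple] at this
        omega
      · have h1 := hw (i + e + 1)
        have h2 := hc (i + e + 1) (by omega) (by omega)
        have h3 : i + (e + 1) + 1 = i + e + 1 + 1 := by omega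
        rw [h3, h1, hg2, mul_assoc, mul_assoc, h2.eq]
  obtain ⟨g, hg1, hg2⟩ := key d le_rfl
  have h1 := hw (i + d + 1)
  rw [hg2, heq, mul_assoc, cs.simple_mul_simple_self, mul_one] at h1
  have h2 := hs (i + d + 1 + 1)
  unfold CoxeterSystem.IsReduced at h2
  rw [h1, List.length_ofFn] at h2
  omega

end Pool.Agent.Lib.MP_e21d7a_al
end

-- part Pool.Agent.Lib.MP_e21d7a_al.ConesB
section

set_option autoImplicit false

namespace Pool.Agent.Lib.MP_e21d7a_al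

def P1 (a b c d e : ℝ) : Prop :=
  0 ≤ 20 * a + 32 * b + 8 * c + 8 * d + 32 * e ∧
  0 ≤ -6 * a + 20 * b + 1 * c + 2 * d + 12 * e ∧
  0 ≤ -20 * a + 18 * b + 20 * c - 1 * d + 32 * e ∧
  0 ≤ -20 * a + 32 * b - 1 * c + 20 * d + 18 * e ∧
  0 ≤ -6 * a + 12 * b + 2 * c + 1 * d + 20 * e ∧
  0 ≤ -20 * a + 62 * b + 1 * c + 1 * d + 62 * e ∧
  0 ≤ 92 * a - 20 * b + 99 * c + 6 * d + 20 * e ∧
  0 ≤ -5 * a + 102 * b - 20 * c + 80 * d + 32 * e ∧
  0 ≤ -5 * a + 32 * b + 80 * c - 20 * d + 102 * e ∧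
  0 ≤ 92 * a + 20 * b + 6 * c + 99 * d - 20 * e

def P2 (a b c d e : ℝ) : Prop :=
  0 ≤ 20 * a + 25 * b - 22 * c + 15 * d + 10 * e ∧
  0 ≤ -8 * a + 20 * b - 8 * c + 4 * d + 4 * e ∧
  0 ≤ -22 * a + 25 * b + 20 * c + 10 * d + 15 * e ∧
  0 ≤ -25 * a + 23 * b - 19 * c + 20 * d + 9 * e ∧
  0 ≤ -19 * a + 23 * b - 25 * c + 9 * d + 20 * e ∧
  0 ≤ -20 * a + 55 * b - 23 * c + 7 * d + 33 * e ∧
  0 ≤ 99 * a - 20 * b + 99 * c + 11 * d + 11 * e ∧
  0 ≤ -23 * a + 55 * b - 20 * c + 33 * d + 7 * e ∧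
  0 ≤ -5 * a + 31 * b + 80 * c - 20 * d + 101 * e ∧
  0 ≤ 80 * a + 31 * b - 5 * c + 101 * d - 20 * e

def S1 (a b c d e S : ℝ) : Prop :=
  P1 a b c d e ∧ 0 ≤ S ∧ P1 (a - S / 100) (b - S / 100) (c - S / 100) (d - S / 100) (e - S / 100) ∧
    P1 (20 * S - a) (20 * S - b) (20 * S - c) (20 * S - d) (20 * S - e)

def S2 (a b c d e S : ℝ) : Prop :=
  P2 a b c d e ∧ 0 ≤ S ∧ P2 (a - S / 100) (b - S / 100) (c - S / 100) (d - S / 100) (e - S / 100) ∧
    P2 (20 * S - a) (20 * S - b) (20 * S - c) (20 * S - d) (20 * S - e)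

theorem tr11 (a b c d e S : ℝ) (hS : S = a + b + c + d + e) (h : P1 b c d e a) :
    S1 a (-b + 4 * a + 4 * c) c d e S := by
  obtain ⟨h1, h2, h3, h4, h5, h6, h7, h8, h9, h10⟩ := h
  subst hS
  refine ⟨⟨?_, ?_, ?_, ?_, ?_, ?_, ?_, ?_, ?_, ?_⟩, ?_, ⟨?_, ?_, ?_, ?_, ?_, ?_, ?_, ?_, ?_, ?_⟩,
    ⟨?_, ?_, ?_, ?_, ?_, ?_, ?_, ?_, ?_, ?_⟩⟩ <;> linarith

theorem tr12 (a b c d e S : ℝ) (hS : S = a + b + c + d + e) (h : P2 a b c d e) :
    S1 a b (-c + 4 * b + 4 * d) d e S := by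
  obtain ⟨h1, h2, h3, h4, h5, h6, h7, h8, h9, h10⟩ := h
  subst hS
  refine ⟨⟨?_, ?_, ?_, ?_, ?_, ?_, ?_, ?_, ?_, ?_⟩, ?_, ⟨?_, ?_, ?_, ?_, ?_, ?_, ?_, ?_, ?_, ?_⟩,
    ⟨?_, ?_, ?_, ?_, ?_, ?_, ?_, ?_, ?_, ?_⟩⟩ <;> linarith

theorem tr13 (a b c d e S : ℝ) (hS : S = a + b + c + d + e) (h : P2 d e a b c) :
    S1 a b c (-d + 4 * c + 4 * e) e S := by
  obtain ⟨h1, h2, h3, h4, h5, h6, h7, h8, h9, h10⟩ := h
  subst hS
  refine ⟨⟨?_, ?_, ?_, ?_, ?_, ?_, ?_, ?_, ?_, ?_⟩, ?_, ⟨?_, ?_, ?_, ?_, ?_, ?_, ?_, ?_, ?_, ?_⟩,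
    ⟨?_, ?_, ?_, ?_, ?_, ?_, ?_, ?_, ?_, ?_⟩⟩ <;> linarith

theorem tr14 (a b c d e S : ℝ) (hS : S = a + b + c + d + e) (h : P1 e a b c d) :
    S1 a b c d (-e + 4 * d + 4 * a) S := by
  obtain ⟨h1, h2, h3, h4, h5, h6, h7, h8, h9, h10⟩ := h
  subst hS
  refine ⟨⟨?_, ?_, ?_, ?_, ?_, ?_, ?_, ?_, ?_, ?_⟩, ?_, ⟨?_, ?_, ?_, ?_, ?_, ?_, ?_, ?_, ?_, ?_⟩,
    ⟨?_, ?_, ?_, ?_, ?_, ?_, ?_, ?_, ?_, ?_⟩⟩ <;> linarith

theorem tr21 (a b c d e S : ℝ) (hS : S = a + b + c + d + e) (h : P1 b c d e a) :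
    S2 a (-b + 4 * a + 4 * c) c d e S := by
  obtain ⟨h1, h2, h3, h4, h5, h6, h7, h8, h9, h10⟩ := h
  subst hS
  refine ⟨⟨?_, ?_, ?_, ?_, ?_, ?_, ?_, ?_, ?_, ?_⟩, ?_, ⟨?_, ?_, ?_, ?_, ?_, ?_, ?_, ?_, ?_, ?_⟩,
    ⟨?_, ?_, ?_, ?_, ?_, ?_, ?_, ?_, ?_, ?_⟩⟩ <;> linarith

theorem tr23 (a b c d e S : ℝ) (hS : S = a + b + c + d + e) (h : P2 d e a b c) :
    S2 a b c (-d + 4 * c + 4 * e) e S := by
  obtain ⟨h1, h2, h3, h4, h5, h6, h7, h8, h9, h10⟩ := h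
  subst hS
  refine ⟨⟨?_, ?_, ?_, ?_, ?_, ?_, ?_, ?_, ?_, ?_⟩, ?_, ⟨?_, ?_, ?_, ?_, ?_, ?_, ?_, ?_, ?_, ?_⟩,
    ⟨?_, ?_, ?_, ?_, ?_, ?_, ?_, ?_, ?_, ?_⟩⟩ <;> linarith

theorem tr24 (a b c d e S : ℝ) (hS : S = a + b + c + d + e) (h : P2 c d e a b) :
    S2 a b c d (-e + 4 * d + 4 * a) S := by
  obtain ⟨h1, h2, h3, h4, h5, h6, h7, h8, h9, h10⟩ := h
  subst hS
  refine ⟨⟨?_, ?_, ?_, ?_, ?_, ?_, ?_, ?_, ?_, ?_⟩, ?_, ⟨?_, ?_, ?_, ?_, ?_, ?_, ?_, ?_, ?_, ?_⟩,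
    ⟨?_, ?_, ?_, ?_, ?_, ?_, ?_, ?_, ?_, ?_⟩⟩ <;> linarith

theorem init_bound (a b c d e S : ℝ) (hS : S = (-a + 4 * e + 4 * b) + b + c + d + e)
    (h : P1 a b c d e) :
    (-2 * S ≤ -a + 4 * e + 4 * b ∧ -a + 4 * e + 4 * b ≤ 2 * S) ∧ (-2 * S ≤ b ∧ b ≤ 2 * S) ∧
      (-2 * S ≤ c ∧ c ≤ 2 * S) ∧ (-2 * S ≤ d ∧ d ≤ 2 * S) ∧ (-2 * S ≤ e ∧ e ≤ 2 * S) := by
  obtain ⟨h1, h2, h3, h4, h5, h6, h7, h8, h9, h10⟩ := h
  subst hS
  refine ⟨⟨?_, ?_⟩, ⟨?_, ?_⟩, ⟨?_, ?_⟩, ⟨?_, ?_⟩, ⟨?_, ?_⟩⟩ <;> linarith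

end Pool.Agent.Lib.MP_e21d7a_al
end

-- part Pool.Agent.Lib.MP_e21d7a_al.SysB
section

set_option autoImplicit false

namespace Pool.Agent.Lib.MP_e21d7a_al

open Filter Topology

/-- Reflections of system B in coordinates. -/
def rB (i : Fin 5) (x : Fin 5 → ℝ) : Fin 5 → ℝ :=
  ![![-x 0 + 4 * x 4 + 4 * x 1, x 1, x 2, x 3, x 4],
    ![x 0, -x 1 + 4 * x 0 + 4 * x 2, x 2, x 3, x 4],
    ![x 0, x 1, -x 2 + 4 * x 1 + 4 * x 3, x 3, x 4],
    ![x 0, x 1, x 2, -x 3 + 4 * x 2 + 4 * x 4, x 4],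
    ![x 0, x 1, x 2, x 3, -x 4 + 4 * x 3 + 4 * x 0]] i

def rotP (P : ℝ → ℝ → ℝ → ℝ → ℝ → Prop) (r : Fin 5) (x : Fin 5 → ℝ) : Prop :=
  ![P (x 0) (x 1) (x 2) (x 3) (x 4), P (x 1) (x 2) (x 3) (x 4) (x 0),
    P (x 2) (x 3) (x 4) (x 0) (x 1), P (x 3) (x 4) (x 0) (x 1) (x 2),
    P (x 4) (x 0) (x 1) (x 2) (x 3)] r

/-- The cones of system B. -/
def CB (q : Fin 5 × Bool) (x : Fin 5 → ℝ) : Prop :=
  if q.2 = true then rotP P2 q.1 x else rotP P1 q.1 x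

def SB (q : Fin 5 × Bool) (x : Fin 5 → ℝ) (S : ℝ) : Prop :=
  if q.2 = true then rotP (fun a b c d e => S2 a b c d e S) q.1 x
  else rotP (fun a b c d e => S1 a b c d e S) q.1 x

def nxt (q : Fin 5 × Bool) (t : Fin 5) : Fin 5 × Bool :=
  if q.2 = true then
    (if t = q.1 + 1 then (t, false) else if t = q.1 + 3 then (t, true) else (q.1 + 2, true))
  else (if t = q.1 + 2 then (q.1, true) else if t = q.1 + 3 then (t, true) else (t, false))

def memq (q : Fin 5 × Bool) (u : Fin 5) : Prop := u = q.1 ∨ (q.2 = true ∧ u = q.1 + 2)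

instance (q : Fin 5 × Bool) (u : Fin 5) : Decidable (memq q u) := by unfold memq; infer_instance

def adjB (i j : Fin 5) : Prop := i - j = 1 ∨ j - i = 1

instance (i j : Fin 5) : Decidable (adjB i j) := by unfold adjB; infer_instance

theorem mem_nxt : ∀ (q : Fin 5 × Bool) (t u : Fin 5), ¬ memq q t → memq (nxt q t) u →
    u = t ∨ (memq q u ∧ ¬ adjB t u) := by decide

theorem mem_nxt_self : ∀ (q : Fin 5 × Bool) (t : Fin 5), ¬ memq q t → memq (nxt q t) t := by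
  decide

theorem rB_rB (i : Fin 5) (x : Fin 5 → ℝ) : rB i (rB i x) = x := by
  funext j
  fin_cases i <;> fin_cases j <;> simp [rB] <;> ring

theorem rB_single (i j : Fin 5) (h : i ≠ j) : rB i (Pi.single j 1) j = 1 := by
  fin_cases i <;> fin_cases j <;> simp [rB] at h ⊢

theorem rB_comm (i j : Fin 5) (h : i ≠ j) (h' : ¬ adjB i j) :
    rB i (Pi.single j 1) = Pi.single j 1 := by
  funext k
  fin_cases i <;> fin_cases j <;>
    first
    | (exfalso; revert h h'; decide)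
    | (fin_cases k <;> simp [rB])

theorem step_S (q : Fin 5 × Bool) (t : Fin 5) (h : ¬ memq q t) (x : Fin 5 → ℝ)
    (hx : CB (nxt q t) x) : SB q (rB t x) (x 0 + x 1 + x 2 + x 3 + x 4) := by
  obtain ⟨r, b⟩ := q
  cases b
  · fin_cases r <;> fin_cases t <;>
      first
      | (exfalso; revert h; decide)
      | (simp [CB, nxt, rotP] at hx
         simp [SB, rotP, rB]
         first
         | exact tr11 _ _ _ _ _ _ (by ring) hx
         | exact tr12 _ _ _ _ _ _ (by ring) hx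
         | exact tr13 _ _ _ _ _ _ (by ring) hx
         | exact tr14 _ _ _ _ _ _ (by ring) hx)
  · fin_cases r <;> fin_cases t <;>
      first
      | (exfalso; revert h; decide)
      | (simp [CB, nxt, rotP] at hx
         simp [SB, rotP, rB]
         first
         | exact tr21 _ _ _ _ _ _ (by ring) hx
         | exact tr23 _ _ _ _ _ _ (by ring) hx
         | exact tr24 _ _ _ _ _ _ (by ring) hx)

theorem SB_elim (q : Fin 5 × Bool) (y : Fin 5 → ℝ) (S : ℝ) (h : SB q y S) :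
    CB q y ∧ 0 ≤ S ∧ CB q (y - ((1 / 2000 : ℝ) * (20 * S)) • (fun _ => (1 : ℝ))) ∧
      CB q ((20 * S) • (fun _ => (1 : ℝ)) - y) := by
  have e : (1 / 2000 : ℝ) * (20 * S) = S / 100 := by ring
  rw [e]
  obtain ⟨r, b⟩ := q
  cases b <;> fin_cases r <;> simpa [CB, SB, rotP, S1, S2] using h

theorem CB_one (q : Fin 5 × Bool) : CB q (fun _ => (1 : ℝ)) := by
  obtain ⟨r, b⟩ := q
  cases b <;> fin_cases r <;> simp [CB, rotP, P1, P2] <;> norm_num

theorem CB_root (q : Fin 5 × Bool) (t u : Fin 5) (h : ¬ memq q t) (h' : adjB t u) :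
    CB q (rB t (Pi.single u 1)) := by
  obtain ⟨r, b⟩ := q
  cases b <;> fin_cases r <;> fin_cases t <;> fin_cases u <;>
    first
    | (exfalso; revert h h'; decide)
    | (simp [CB, rotP, P1, P2, rB] <;> norm_num)

theorem CB_init (r : Fin 5) (x : Fin 5 → ℝ) (hx : CB (r, false) x) (i : Fin 5) :
    -2 * (∑ j, rB r x j) ≤ rB r x i ∧ rB r x i ≤ 2 * (∑ j, rB r x j) := by
  rw [Fin.sum_univ_five]
  fin_cases r <;> simp [CB, rotP] at hx <;>
    obtain ⟨⟨h1, h2⟩, ⟨h3, h4⟩, ⟨h5, h6⟩, ⟨h7, h8⟩, ⟨h9, h10⟩⟩ := init_bound _ _ _ _ _ _ rfl hx <;>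
    fin_cases i <;> simp [rB] <;> constructor <;> linarith

/-- The state after reading the letters up to position k. -/
def stB (s : ℕ → Fin 5) : ℕ → Fin 5 × Bool
  | 0 => (s 0, false)
  | k + 1 => nxt (stB s k) (s (k + 1))

theorem stB_ok (s : ℕ → Fin 5)
    (hs : ∀ i d, s (i + d + 1) = s i → ∃ j, i < j ∧ j ≤ i + d ∧ adjB (s j) (s i)) (k : ℕ) :
    (∀ u, memq (stB s k) u → ∃ i, i ≤ k ∧ s i = u ∧ ∀ j, i < j → j ≤ k → ¬ adjB (s j) u) ∧
      ¬ memq (stB s k) (s (k + 1)) := by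
  have aux : ∀ k, (∀ u, memq (stB s k) u →
      ∃ i, i ≤ k ∧ s i = u ∧ ∀ j, i < j → j ≤ k → ¬ adjB (s j) u) →
      ¬ memq (stB s k) (s (k + 1)) := by
    intro k h hm
    obtain ⟨i, hi, hi2, hi3⟩ := h _ hm
    obtain ⟨d, rfl⟩ := Nat.exists_eq_add_of_le hi
    obtain ⟨j, hj1, hj2, hj3⟩ := hs i d hi2.symm
    exact hi3 j hj1 hj2 (hi2 ▸ hj3)
  induction k with
  | zero =>
    have h : ∀ u, memq (stB s 0) u →
        ∃ i, i ≤ 0 ∧ s i = u ∧ ∀ j, i < j → j ≤ 0 → ¬ adjB (s j) u := by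
      intro u hu
      refine ⟨0, le_rfl, ?_, fun j h1 h2 => by omega⟩
      simpa [stB, memq, eq_comm] using hu
    exact ⟨h, aux 0 h⟩
  | succ k ih =>
    have h : ∀ u, memq (stB s (k + 1)) u →
        ∃ i, i ≤ k + 1 ∧ s i = u ∧ ∀ j, i < j → j ≤ k + 1 → ¬ adjB (s j) u := by
      intro u hu
      rcases mem_nxt _ _ _ ih.2 hu with h | ⟨h1, h2⟩
      · exact ⟨k + 1, le_rfl, h.symm, fun j h1 h2 => by omega⟩
      · obtain ⟨i, hi1, hi2, hi3⟩ := ih.1 u h1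
        refine ⟨i, by omega, hi2, fun j hj1 hj2 => ?_⟩
        rcases Nat.lt_or_ge j (k + 1) with h | h
        · exact hi3 j hj1 (by omega)
        · have : j = k + 1 := by omega
          rw [this]; exact h2
    exact ⟨h, aux _ h⟩

theorem sysB (σ : Fin 5 → Matrix (Fin 5) (Fin 5) ℝ) (hσ : ∀ i x, (σ i).mulVec x = rB i x)
    (s : ℕ → Fin 5)
    (hs : ∀ i d, s (i + d + 1) = s i → ∃ j, i < j ∧ j ≤ i + d ∧ adjB (s j) (s i)) :
    ∃! x : Fin 5 → ℝ, AccPt x (Filter.principal (Set.range fun k : ℕ =>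
          (∑ i, (Matrix.mulVec (List.ofFn fun j : Fin k => σ (s j)).prod
              (Pi.single (s k) (1 : ℝ) : Fin 5 → ℝ)) i)⁻¹ •
            Matrix.mulVec (List.ofFn fun j : Fin k => σ (s j)).prod
              (Pi.single (s k) (1 : ℝ) : Fin 5 → ℝ))) := by
  have hinv : ∀ i x, (σ i).mulVec ((σ i).mulVec x) = x := by
    intro i x; rw [hσ, hσ, rB_rB]
  have hne : ∀ k, s k ≠ s (k + 1) := by
    intro k h
    obtain ⟨j, h1, h2, _⟩ := hs k 0 h.symm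
    omega
  have hq := fun k => (stB_ok s hs k).2
  let K : ℕ → Set (Fin 5 → ℝ) := fun k =>
    {y | ∃ x, CB (stB s k) x ∧ y = (W σ s (k + 1)).mulVec x}
  have hstep := fun k x (hx : CB (stB s (k + 1)) x) =>
    SB_elim _ _ _ (step_S (stB s k) (s (k + 1)) (hq k) x hx)
  have hanti : ∀ k, K (k + 1) ⊆ K k := by
    rintro k y ⟨x, hx, rfl⟩
    exact ⟨_, (hstep k x hx).1, by rw [W_succ_mulVec, hσ]⟩
  have hmono : ∀ {a b : ℕ}, a ≤ b → K b ⊆ K a := fun {a b} h =>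
    (antitone_nat_of_succ_le hanti) h
  have h0 : ∀ y ∈ K 0, ∀ i, -2 * (∑ j, y j) ≤ y i ∧ y i ≤ 2 * (∑ j, y j) := by
    rintro y ⟨x, hx, rfl⟩ i
    rw [W_succ_mulVec, W_zero, Matrix.one_mulVec, hσ]
    exact CB_init _ x hx i
  -- pulling a root back to the last letter adjacent to it
  have hback : ∀ m e : ℕ, (∀ j, m ≤ j → j < m + e → s j ≠ s (m + e) ∧ ¬ adjB (s j) (s (m + e))) ∨
      ∃ j, m ≤ j ∧ adjB (s j) (s (m + e)) ∧
        (W σ s (m + e)).mulVec (Pi.single (s (m + e)) (1 : ℝ)) =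
          (W σ s j).mulVec (rB (s j) (Pi.single (s (m + e)) (1 : ℝ))) := by
    intro m e
    set n := m + e with hn
    have key : ∀ d, d ≤ n → ((∀ j, n - d ≤ j → j < n → s j ≠ s n ∧ ¬ adjB (s j) (s n)) ∧
        (W σ s n).mulVec (Pi.single (s n) (1 : ℝ)) =
          (W σ s (n - d)).mulVec (Pi.single (s n) (1 : ℝ))) ∨
        ∃ j, n - d ≤ j ∧ adjB (s j) (s n) ∧
          (W σ s n).mulVec (Pi.single (s n) (1 : ℝ)) =
            (W σ s j).mulVec (rB (s j) (Pi.single (s n) (1 : ℝ))) := by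
      intro d
      induction d with
      | zero => intro _; exact Or.inl ⟨fun j h1 h2 => by omega, rfl⟩
      | succ d ih =>
        intro hd
        rcases ih (by omega) with ⟨h1, h2⟩ | ⟨j, h1, h2, h3⟩
        · obtain ⟨i, hi⟩ : ∃ i, n - d = i + 1 := ⟨n - d - 1, by omega⟩
          have hi' : n - (d + 1) = i := by omega
          rw [hi, W_succ_mulVec, hσ] at h2
          rw [hi']
          by_cases hadj : adjB (s i) (s n)
          · exact Or.inr ⟨i, le_rfl, hadj, h2⟩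
          · have hne' : s i ≠ s n := by
              intro h
              have hn' : n = i + d + 1 := by omega
              obtain ⟨j, hj1, hj2, hj3⟩ := hs i d (hn' ▸ h.symm)
              exact (h1 j (by omega) (by omega)).2 (h ▸ hj3)
            refine Or.inl ⟨fun j hj1 hj2 => ?_, by rw [h2, rB_comm _ _ hne' hadj]⟩
            rcases Nat.lt_or_ge i j with h | h
            · exact h1 j (by omega) hj2
            · have : j = i := by omega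
              rw [this]; exact ⟨hne', hadj⟩
        · exact Or.inr ⟨j, by omega, h2, h3⟩
    rcases key e (by omega) with ⟨h1, _⟩ | ⟨j, h1, h2, h3⟩
    · exact Or.inl fun j a b => h1 j (by omega) b
    · exact Or.inr ⟨j, by omega, h2, h3⟩
  have hβ : ∀ k, ∀ᶠ n in atTop, (W σ s n).mulVec (Pi.single (s n) (1 : ℝ)) ∈ K k := by
    intro k
    let bad : Set ℕ := {n | k + 1 ≤ n ∧ ∀ j, k + 1 ≤ j → j < n → s j ≠ s n}
    have hfin : bad.Finite := by
      refine Set.Finite.of_finite_image (f := s) (Set.toFinite _) ?_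
      intro a ha b hb hab
      by_contra hne'
      rcases Nat.lt_or_gt_of_ne hne' with h | h
      · exact hb.2 a ha.1 h hab
      · exact ha.2 b hb.1 h hab.symm
    obtain ⟨N, hN⟩ := hfin.bddAbove
    refine eventually_atTop.2 ⟨max (N + 1) (k + 1), fun n hn => ?_⟩
    have hn1 : N + 1 ≤ n := le_of_max_le_left hn
    have hn2 : k + 1 ≤ n := le_of_max_le_right hn
    obtain ⟨e, rfl⟩ := Nat.exists_eq_add_of_le hn2
    rcases hback (k + 1) e with h | ⟨j, h1, h2, h3⟩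
    · have : k + 1 + e ∈ bad := ⟨hn2, fun j a b => (h j a b).1⟩
      have := hN this
      omega
    · obtain ⟨i, rfl⟩ : ∃ i, j = i + 1 := ⟨j - 1, by omega⟩
      exact hmono (show k ≤ i by omega) ⟨_, CB_root _ _ _ (hq i) h2, h3⟩
  have hpos : ∀ᶠ m in atTop, 0 < ∑ j, (W σ s m).mulVec (Pi.single (s m) (1 : ℝ)) j := by
    filter_upwards [hβ 0] with m hm
    refine sum_pos_of_bounds _ (fun h => ?_) (h0 _ hm)
    simpa using congrFun (W_inj σ s hinv m _ h) (s m)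
  refine finish σ s hinv (fun i j h => by rw [hσ]; exact rB_single i j h) hne hpos ?_
  refine conv_of_cones K hanti h0 (1 / 2000) (by norm_num) (by norm_num) ?_ _ hβ hpos
  intro N
  refine ⟨N, le_rfl, N + 1, (W σ s (N + 1)).mulVec (fun _ => (1 : ℝ)), ⟨_, CB_one _, rfl⟩, ?_⟩
  rintro y ⟨x, hx, rfl⟩
  obtain ⟨_, h1, h2, h3⟩ := hstep N x hx
  refine ⟨20 * (x 0 + x 1 + x 2 + x 3 + x 4), by linarith, ⟨_, h2, ?_⟩, ⟨_, h3, ?_⟩⟩
  · rw [W_succ_mulVec σ s (N + 1), hσ, Matrix.mulVec_sub, Matrix.mulVec_smul]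
  · rw [W_succ_mulVec σ s (N + 1), hσ, Matrix.mulVec_sub, Matrix.mulVec_smul]

end Pool.Agent.Lib.MP_e21d7a_al
end

-- part Pool.Agent.Lib.MP_e21d7a_al.SysA
section

set_option autoImplicit false

namespace Pool.Agent.Lib.MP_e21d7a_al

open Filter Topology

/-- Reflections of system A in coordinates. -/
def rA (i : Fin 4) (x : Fin 4 → ℝ) : Fin 4 → ℝ :=
  ![![-x 0 + 4 * x 1 + 2 * x 2 + 2 * x 3, x 1, x 2, x 3],
    ![x 0, 4 * x 0 - x 1 + 2 * x 2 + 2 * x 3, x 2, x 3],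
    ![x 0, x 1, 2 * x 0 + 2 * x 1 - x 2 + 12 * x 3, x 3],
    ![x 0, x 1, x 2, 2 * x 0 + 2 * x 1 + 12 * x 2 - x 3]] i

def PA (a b c d : ℝ) : Prop :=
  0 ≤ b + 4 * d ∧ 0 ≤ b + d ∧ 0 ≤ b + 4 * c ∧ 0 ≤ b + c ∧ 0 ≤ 2 * a - 5 * b - 2 * c - 2 * d ∧
    0 ≤ a - c - d

def QA (a b c d : ℝ) : Prop :=
  0 ≤ b + d ∧ 0 ≤ b + 4 * d ∧ 0 ≤ a + d ∧ 0 ≤ a + 4 * d ∧ 0 ≤ c - a - b - 8 * d ∧
    0 ≤ c - a - b

/-- The cones of system A. -/
def CA (i : Fin 4) (x : Fin 4 → ℝ) : Prop :=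
  ![PA (x 0) (x 1) (x 2) (x 3), PA (x 1) (x 0) (x 2) (x 3), QA (x 0) (x 1) (x 2) (x 3),
    QA (x 0) (x 1) (x 3) (x 2)] i

/-- Interior points. -/
def cA (i : Fin 4) : Fin 4 → ℝ :=
  ![![11, 1, 1, 1], ![1, 11, 1, 1], ![1, 1, 11, 1], ![1, 1, 1, 11]] i

/-- Parabolic pairs. -/
def parA (i j : Fin 4) : Prop := (i.val < 2 ∧ 2 ≤ j.val) ∨ (j.val < 2 ∧ 2 ≤ i.val)

instance (i j : Fin 4) : Decidable (parA i j) := by unfold parA; infer_instance

theorem rA_rA (i : Fin 4) (x : Fin 4 → ℝ) : rA i (rA i x) = x := by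
  funext j
  fin_cases i <;> fin_cases j <;> simp [rA] <;> ring

theorem rA_single (i j : Fin 4) (h : i ≠ j) : rA i (Pi.single j 1) j = 1 := by
  fin_cases i <;> fin_cases j <;> simp [rA] at h ⊢

theorem CA_weak (s t : Fin 4) (h : s ≠ t) (x : Fin 4 → ℝ) (hx : CA t x) : CA s (rA s x) := by
  fin_cases s <;> fin_cases t <;> simp [CA, PA, QA, rA] at h hx ⊢ <;>
    obtain ⟨h1, h2, h3, h4, h5, h6⟩ := hx <;>
    refine ⟨?_, ?_, ?_, ?_, ?_, ?_⟩ <;> linarith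

theorem CA_single (s : Fin 4) : CA s (Pi.single s 1) := by
  fin_cases s <;> simp [CA, PA, QA]

theorem CA_c (s : Fin 4) : CA s (cA s) := by
  fin_cases s <;> simp [CA, PA, QA, cA] <;> norm_num

theorem CA_bound (s : Fin 4) (x : Fin 4 → ℝ) (hx : CA s x) (i : Fin 4) :
    -2 * (∑ j, x j) ≤ x i ∧ x i ≤ 2 * (∑ j, x j) := by
  rw [Fin.sum_univ_four]
  fin_cases s <;> fin_cases i <;> simp [CA, PA, QA] at hx ⊢ <;>
    obtain ⟨h1, h2, h3, h4, h5, h6⟩ := hx <;>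
    refine ⟨?_, ?_⟩ <;> linarith

theorem CA_strict (s t u : Fin 4) (h1 : s ≠ t) (h2 : t ≠ u) (h3 : ¬ (u = s ∧ parA s t))
    (x : Fin 4 → ℝ) (hx : CA u x) :
    CA s (rA s (rA t x) - ((1 / 1200 : ℝ) * (60 * (x 0 + x 1 + x 2 + x 3))) • cA s) ∧
    CA s ((60 * (x 0 + x 1 + x 2 + x 3)) • cA s - rA s (rA t x)) := by
  fin_cases s <;> fin_cases t <;> fin_cases u <;>
    first
    | (exfalso; revert h1 h2 h3; decide)
    | (simp only [CA, PA, QA, rA, cA] at hx ⊢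
       simp at hx ⊢
       obtain ⟨h1, h2, h3, h4, h5, h6⟩ := hx
       refine ⟨⟨?_, ?_, ?_, ?_, ?_, ?_⟩, ⟨?_, ?_, ?_, ?_, ?_, ?_⟩⟩ <;> linarith)

theorem par_one (s t : Fin 4) (h : parA s t) :
    rA s (Pi.single t 1) = Pi.single s 1 + (Pi.single s 1 + Pi.single t 1) := by
  funext j
  fin_cases s <;> fin_cases t <;>
    first
    | (exfalso; revert h; decide)
    | (fin_cases j <;> simp [rA] <;> norm_num)

theorem par_fix (s t : Fin 4) (h : parA s t) :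
    rA s (Pi.single s 1 + Pi.single t 1) = Pi.single s 1 + Pi.single t 1 := by
  funext j
  fin_cases s <;> fin_cases t <;>
    first
    | (exfalso; revert h; decide)
    | (fin_cases j <;> simp [rA] <;> norm_num)

theorem par_cone (s t : Fin 4) (h : parA s t) : CA s (Pi.single s 1 + Pi.single t 1) := by
  fin_cases s <;> fin_cases t <;>
    first
    | (exfalso; revert h; decide)
    | simp [CA, PA, QA]

theorem par_ne (s t : Fin 4) (h : parA s t) :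
    (Pi.single s 1 + Pi.single t 1 : Fin 4 → ℝ) ≠ 0 := by
  intro h'
  have := congrFun h' s
  fin_cases s <;> fin_cases t <;>
    first
    | (exfalso; revert h; decide)
    | simp at this

theorem sysA (σ : Fin 4 → Matrix (Fin 4) (Fin 4) ℝ) (hσ : ∀ i x, (σ i).mulVec x = rA i x)
    (s : ℕ → Fin 4) (hs : ∀ k, s k ≠ s (k + 1)) :
    ∃! x : Fin 4 → ℝ, AccPt x (Filter.principal (Set.range fun k : ℕ =>
          (∑ i, (Matrix.mulVec (List.ofFn fun j : Fin k => σ (s j)).prod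
              (Pi.single (s k) (1 : ℝ) : Fin 4 → ℝ)) i)⁻¹ •
            Matrix.mulVec (List.ofFn fun j : Fin k => σ (s j)).prod
              (Pi.single (s k) (1 : ℝ) : Fin 4 → ℝ))) := by
  have hinv : ∀ i x, (σ i).mulVec ((σ i).mulVec x) = x := by
    intro i x; rw [hσ, hσ, rA_rA]
  let K : ℕ → Set (Fin 4 → ℝ) := fun k => {y | ∃ x, CA (s k) x ∧ y = (W σ s k).mulVec x}
  have hanti : ∀ k, K (k + 1) ⊆ K k := by
    rintro k y ⟨x, hx, rfl⟩
    exact ⟨_, CA_weak _ _ (hs k) x hx, by rw [W_succ_mulVec, hσ]⟩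
  have hmono : ∀ {a b : ℕ}, a ≤ b → K b ⊆ K a := fun {a b} h =>
    (antitone_nat_of_succ_le hanti) h
  have h0 : ∀ y ∈ K 0, ∀ i, -2 * (∑ j, y j) ≤ y i ∧ y i ≤ 2 * (∑ j, y j) := by
    rintro y ⟨x, hx, rfl⟩ i
    rw [W_zero, Matrix.one_mulVec]
    exact CA_bound _ x hx i
  have hβ : ∀ k, (W σ s k).mulVec (Pi.single (s k) (1 : ℝ)) ∈ K k :=
    fun k => ⟨_, CA_single _, rfl⟩
  have hKpos : ∀ k x, CA (s k) x → x ≠ 0 → 0 < ∑ j, (W σ s k).mulVec x j := by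
    intro k x hx hx0
    exact sum_pos_of_bounds _ (fun h => hx0 (W_inj σ s hinv k x h))
      (h0 _ (hmono (Nat.zero_le k) ⟨x, hx, rfl⟩))
  have hpos : ∀ m, 0 < ∑ j, (W σ s m).mulVec (Pi.single (s m) (1 : ℝ)) j := by
    intro m
    refine hKpos m _ (CA_single _) ?_
    intro h
    simpa using congrFun h (s m)
  refine finish σ s hinv (fun i j h => by rw [hσ]; exact rA_single i j h) hs
    (Eventually.of_forall hpos) ?_
  by_cases hbr : ∀ N, ∃ k, N ≤ k ∧ ¬ (s (k + 2) = s k ∧ parA (s k) (s (k + 1)))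
  · refine conv_of_cones K hanti h0 (1 / 1200) (by norm_num) (by norm_num) ?_ _ ?_
      (Eventually.of_forall hpos)
    · intro N
      obtain ⟨k, hk, hk'⟩ := hbr N
      refine ⟨k, hk, k + 2, (W σ s k).mulVec (cA (s k)), ⟨_, CA_c _, rfl⟩, ?_⟩
      rintro y ⟨x, hx, rfl⟩
      obtain ⟨h1, h2⟩ := CA_strict (s k) (s (k + 1)) (s (k + 2)) (hs k) (hs (k + 1)) hk' x hx
      have hb := CA_bound _ x hx 0
      rw [Fin.sum_univ_four] at hb
      refine ⟨60 * (x 0 + x 1 + x 2 + x 3), by linarith [hb.1, hb.2], ⟨_, h1, ?_⟩, ⟨_, h2, ?_⟩⟩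
      · rw [W_succ_mulVec, W_succ_mulVec, hσ, hσ, Matrix.mulVec_sub, Matrix.mulVec_smul]
      · rw [W_succ_mulVec, W_succ_mulVec, hσ, hσ, Matrix.mulVec_sub, Matrix.mulVec_smul]
    · intro k
      exact eventually_atTop.2 ⟨k, fun m hm => hmono hm (hβ m)⟩
  · push Not at hbr
    obtain ⟨N, hN⟩ := hbr
    set d := (W σ s N).mulVec (Pi.single (s N) (1 : ℝ) + Pi.single (s (N + 1)) (1 : ℝ)) with hd
    set b := (W σ s N).mulVec (Pi.single (s N) (1 : ℝ)) with hb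
    have hdpos : 0 < ∑ j, d j :=
      hKpos N _ (par_cone _ _ (hN N le_rfl).2) (par_ne _ _ (hN N le_rfl).2)
    have hdm : ∀ m : ℕ, (W σ s (N + m)).mulVec
        (Pi.single (s (N + m)) (1 : ℝ) + Pi.single (s (N + m + 1)) (1 : ℝ)) = d := by
      intro m
      induction m with
      | zero => rfl
      | succ m ih =>
        obtain ⟨h1, h2⟩ := hN (N + m) (by omega)
        have e1 : N + (m + 1) = N + m + 1 := by omega
        rw [e1, W_succ_mulVec, hσ, show N + m + 1 + 1 = N + m + 2 by omega, h1, add_comm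
          (Pi.single (s (N + m + 1)) (1 : ℝ) : Fin 4 → ℝ), par_fix _ _ h2, ih]
    have hbm : ∀ m : ℕ, (W σ s (N + m)).mulVec (Pi.single (s (N + m)) (1 : ℝ)) =
        b + (m : ℝ) • d := by
      intro m
      induction m with
      | zero => simp [hb]
      | succ m ih =>
        obtain ⟨h1, h2⟩ := hN (N + m) (by omega)
        have e1 : N + (m + 1) = N + m + 1 := by omega
        rw [e1, W_succ_mulVec, hσ, par_one _ _ h2, Matrix.mulVec_add, ih, hdm]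
        push_cast
        rw [add_smul, one_smul, add_assoc]
    refine ⟨(∑ j, d j)⁻¹ • d, ?_⟩
    rw [← tendsto_add_atTop_iff_nat N]
    have hlim : Tendsto (fun m : ℕ => ((m : ℝ)⁻¹ * ∑ j, b j + ∑ j, d j)⁻¹ • ((m : ℝ)⁻¹ • b + d))
        atTop (𝓝 ((0 * ∑ j, b j + ∑ j, d j)⁻¹ • ((0 : ℝ) • b + d))) := by
      have h0 : Tendsto (fun m : ℕ => (m : ℝ)⁻¹) atTop (𝓝 0) := tendsto_inv_atTop_nhds_zero_nat
      refine Tendsto.smul (Tendsto.inv₀ ((h0.mul_const _).add_const _) ?_)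
        ((h0.smul_const _).add_const _)
      rw [zero_mul, zero_add]; exact hdpos.ne'
    rw [zero_mul, zero_add, zero_smul, zero_add] at hlim
    refine hlim.congr' (eventually_atTop.2 ⟨1, fun m hm => ?_⟩)
    have hm0 : (m : ℝ) ≠ 0 := by exact_mod_cast (by omega : m ≠ 0)
    have e1 : b + (m : ℝ) • d = (m : ℝ) • ((m : ℝ)⁻¹ • b + d) := by
      rw [smul_add, smul_smul, mul_inv_cancel₀ hm0, one_smul]
    have e2 : ∑ j, (b + (m : ℝ) • d) j = (m : ℝ) * ((m : ℝ)⁻¹ * ∑ j, b j + ∑ j, d j) := by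
      simp only [Pi.add_apply, Pi.smul_apply, smul_eq_mul, Finset.sum_add_distrib,
        ← Finset.mul_sum]
      field_simp
    show _ = (∑ j, (W σ s (m + N)).mulVec (Pi.single (s (m + N)) (1 : ℝ)) j)⁻¹ •
      (W σ s (m + N)).mulVec (Pi.single (s (m + N)) (1 : ℝ))
    rw [add_comm m N, hbm, e2, e1, smul_smul, mul_inv]
    congr 1
    field_simp

end Pool.Agent.Lib.MP_e21d7a_al
end
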